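import Pool.Agent.H11.NZ.Targets

/-!
# Module DC of the board nz_modules
-/

set_option autoImplicit false

open Equiv (Perm)

namespace Pool.Agent.H12.NZ.DC

open Pool.Agent.H11.NY Pool.Agent.H11.NZ

variable {L Ω : Type} [Group L] [Fintype Ω] [DecidableEq Ω]

theorem not_mem_image {Δ : Finset Ω} {σ : Perm Ω} {ω : Ω} (h : ω ∉ Δ) :
    σ ω ∉ Δ.image (fun x => σ x) := by
  intro hm
  obtain ⟨x, hx, hxe⟩ := Finset.mem_image.mp hm
  have := σ.injective hxe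
  subst this
  exact h hx

theorem inv_not_mem {Δ : Finset Ω} {σ : Perm Ω} {ω : Ω} (h : ω ∉ Δ.image (fun x => σ x)) :
    σ⁻¹ ω ∉ Δ := by
  intro hm
  apply h
  refine Finset.mem_image.mpr ⟨σ⁻¹ ω, hm, ?_⟩
  simp

theorem covOn_conj (ψ : L →* alternatingGroup Ω) (X : Subgroup L) (hX : X.Normal) (Δ : Finset Ω)
    (C : Subgroup L) (h : CovOn ψ X Δ C) (y : L) :
    CovOn ψ X (Δ.image fun ω => (ψ y : Perm Ω) ω) (C.map (MulAut.conj y).toMonoidHom) := by
  obtain ⟨h1, h2, h3, h4⟩ := h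
  refine ⟨?_, ?_, ?_, ?_⟩
  · rintro _ ⟨c, hc, rfl⟩
    exact hX.conj_mem c (h1 hc) y
  · rintro _ ⟨c, hc, rfl⟩ ω hω
    have h5 := h2 c hc _ (inv_not_mem hω)
    simp only [MulEquiv.toMonoidHom_eq_coe, MonoidHom.coe_coe, MulAut.conj_apply, map_mul, map_inv,
      Subgroup.coe_mul, Subgroup.coe_inv, Equiv.Perm.mul_apply]
    rw [h5]
    simp
  · rintro x hx hxΔ _ ⟨c, hc, rfl⟩
    refine ⟨(y⁻¹ * x * y) * c * (y⁻¹ * x * y)⁻¹, ?_, ?_⟩
    · apply h3
      · have := hX.conj_mem x hx y⁻¹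
        simpa using this
      · intro ω hω
        have h5 := hxΔ _ (not_mem_image (σ := (ψ y : Perm Ω)) hω)
        simp only [map_mul, map_inv, Subgroup.coe_mul, Subgroup.coe_inv, Equiv.Perm.mul_apply]
        rw [h5]
        simp
      · exact hc
    · simp only [MulEquiv.toMonoidHom_eq_coe, MonoidHom.coe_coe, MulAut.conj_apply]
      group
  · intro σ hσ
    obtain ⟨c, hc, hcσ⟩ := h4 ((ψ y)⁻¹ * σ * ψ y) (by
      intro ω hω
      have h5 := hσ _ (not_mem_image (σ := (ψ y : Perm Ω)) hω)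
      simp only [Subgroup.coe_mul, Subgroup.coe_inv, Equiv.Perm.mul_apply]
      rw [h5]
      simp)
    refine ⟨_, ⟨c, hc, rfl⟩, ?_⟩
    simp only [MulEquiv.toMonoidHom_eq_coe, MonoidHom.coe_coe, MulAut.conj_apply, map_mul, map_inv,
      hcσ]
    group

theorem pf_dc : T_DC := by
  intro L Ω _ _ _ ψ X hX Δ D hD y
  refine ⟨covOn_conj ψ X hX Δ D hD.1 y, ?_⟩
  intro C hC
  have h1 := covOn_conj ψ X hX _ C hC y⁻¹
  have h2 : (Δ.image fun ω => (ψ y : Perm Ω) ω).image (fun ω => (ψ y⁻¹ : Perm Ω) ω) = Δ := by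
    rw [Finset.image_image]
    have : ((fun ω => (ψ y⁻¹ : Perm Ω) ω) ∘ fun ω => (ψ y : Perm Ω) ω) = id := by
      funext ω
      simp
    rw [this, Finset.image_id]
  rw [h2] at h1
  have h3 := hD.2 _ h1
  rintro _ ⟨d, hd, rfl⟩
  obtain ⟨c, hc, hcd⟩ := h3 hd
  rw [← hcd]
  have : (MulAut.conj y).toMonoidHom ((MulAut.conj y⁻¹).toMonoidHom c) = c := by
    simp only [MulEquiv.toMonoidHom_eq_coe, MonoidHom.coe_coe, MulAut.conj_apply]
    group
  rw [this]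
  exact hc

end Pool.Agent.H12.NZ.DC
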