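import Pool.Agent.H11.NZ.Targets

/-!
# Module STX of the board nz_modules
-/

set_option autoImplicit false

open Equiv (Perm)

namespace Pool.Agent.H12.NZ.STX

open Pool.Agent.H11.NY Pool.Agent.H11.NZ

/-- the even permutations of the points different from `ω`, as permutations of all points -/
def ext {Ω : Type} [Fintype Ω] [DecidableEq Ω] (ω : Ω) :
    alternatingGroup {x : Ω // x ≠ ω} →* alternatingGroup Ω where
  toFun σ := ⟨Equiv.Perm.ofSubtype σ.1, by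
    rw [Equiv.Perm.mem_alternatingGroup, Equiv.Perm.sign_ofSubtype]
    exact Equiv.Perm.mem_alternatingGroup.mp σ.2⟩
  map_one' := by
    apply Subtype.ext
    simp
  map_mul' := by
    intro x y
    apply Subtype.ext
    simp

theorem ext_fix {Ω : Type} [Fintype Ω] [DecidableEq Ω] (ω : Ω)
    (σ : alternatingGroup {x : Ω // x ≠ ω}) : ((ext ω σ : alternatingGroup Ω) : Perm Ω) ω = ω :=
  Equiv.Perm.ofSubtype_apply_of_not_mem σ.1 (by simp)

theorem ext_inj {Ω : Type} [Fintype Ω] [DecidableEq Ω] (ω : Ω) :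
    Function.Injective (ext ω) := by
  intro σ τ h
  apply Subtype.ext
  apply Equiv.Perm.ofSubtype_injective
  exact congrArg Subtype.val h

theorem ext_surj {Ω : Type} [Fintype Ω] [DecidableEq Ω] (ω : Ω) (τ : alternatingGroup Ω)
    (h : (τ : Perm Ω) ω = ω) : ∃ σ, ext ω σ = τ := by
  have h1 : ∀ x, x ≠ ω ↔ (τ : Perm Ω) x ≠ ω := by
    intro x
    refine not_congr ⟨fun hx => by rw [hx, h], fun hx => ?_⟩
    apply (τ : Perm Ω).injective
    rw [hx, h]
  have h2 : Equiv.Perm.ofSubtype ((τ : Perm Ω).subtypePerm (p := fun x => x ≠ ω)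
      (fun x => (h1 x).symm)) = (τ : Perm Ω) := by
    apply Equiv.Perm.ofSubtype_subtypePerm
    intro x hx hxω
    rw [hxω] at hx
    exact hx h
  refine ⟨⟨(τ : Perm Ω).subtypePerm (p := fun x => x ≠ ω) (fun x => (h1 x).symm), ?_⟩, ?_⟩
  · rw [Equiv.Perm.mem_alternatingGroup, ← Equiv.Perm.sign_ofSubtype, h2]
    exact Equiv.Perm.mem_alternatingGroup.mp τ.2
  · apply Subtype.ext
    exact h2

theorem pf_stx : T_STX := by
  intro L Ω _ _ _ ψ X hΩ hX ω C hC hCn hx Δ hωΔ D hD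
  have hcard : 5 ≤ Nat.card {x : Ω // x ≠ ω} := by
    rw [Nat.card_eq_fintype_card, Fintype.card_subtype_compl, Fintype.card_subtype_eq]
    omega
  have hsim : IsSimpleGroup (alternatingGroup {x : Ω // x ≠ ω}) :=
    alternatingGroup.isSimpleGroup hcard
  have hsur : ∀ τ : alternatingGroup Ω, ∃ y ∈ X, ψ y = τ := by
    intro τ
    have : τ ∈ X.map ψ := by
      rw [hX.2.1]
      exact Subgroup.mem_top τ
    exact this
  have hnor : (((C ⊓ X).map ψ).comap (ext ω)).Normal := by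
    constructor
    intro n hn g
    obtain ⟨c, hc, hcn⟩ := hn
    obtain ⟨y, hyX, hy⟩ := hsur (ext ω g)
    refine ⟨y * c * y⁻¹, ⟨hCn y hyX (by rw [hy]; exact ext_fix ω g) c hc.1,
      hX.1.conj_mem c hc.2 y⟩, ?_⟩
    rw [map_mul, map_mul, map_inv, hcn, hy, map_mul, map_mul, map_inv]
  have htop : ((C ⊓ X).map ψ).comap (ext ω) = ⊤ := by
    rcases hnor.eq_bot_or_eq_top with h | h
    · exfalso
      obtain ⟨t, htC, ht1⟩ := hx
      obtain ⟨σ, hσ⟩ := ext_surj ω (ψ t) (hC t htC)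
      have hσ1 : σ ≠ 1 := by
        intro h1
        rw [h1, map_one] at hσ
        exact ht1 hσ.symm
      have hcen : Subgroup.center (alternatingGroup {x : Ω // x ≠ ω}) = ⊥ :=
        alternatingGroup.center_eq_bot (by omega)
      have hex : ∃ g, g * σ ≠ σ * g := by
        by_contra hall
        push Not at hall
        apply hσ1
        have : σ ∈ Subgroup.center (alternatingGroup {x : Ω // x ≠ ω}) :=
          Subgroup.mem_center_iff.mpr hall
        rw [hcen, Subgroup.mem_bot] at this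
        exact this
      obtain ⟨g, hg⟩ := hex
      obtain ⟨y, hyX, hy⟩ := hsur (ext ω g)
      have h1 : g * σ * g⁻¹ * σ⁻¹ ∈ ((C ⊓ X).map ψ).comap (ext ω) := by
        rw [Subgroup.mem_comap]
        refine ⟨y * t * y⁻¹ * t⁻¹, ⟨C.mul_mem (hCn y hyX (by rw [hy]; exact ext_fix ω g) t htC)
          (C.inv_mem htC), ?_⟩, ?_⟩
        · have h2 : y * t * y⁻¹ * t⁻¹ = y * (t * y⁻¹ * t⁻¹) := by group
          rw [h2]
          exact X.mul_mem hyX (hX.1.conj_mem _ (X.inv_mem hyX) t)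
        · simp only [map_mul, map_inv, hy, hσ]
      rw [h, Subgroup.mem_bot] at h1
      apply hg
      have h3 : g * σ * g⁻¹ = σ := by
        rwa [mul_inv_eq_one] at h1
      rwa [mul_inv_eq_iff_eq_mul] at h3
    · exact h
  let C2 : Subgroup L :=
    { carrier := {c | (c ∈ C ∧ c ∈ X) ∧ ∀ ω : Ω, ω ∉ Δ → (ψ c : Perm Ω) ω = ω}
      one_mem' := ⟨⟨C.one_mem, X.one_mem⟩, fun ω _ => by simp⟩
      mul_mem' := by
        rintro a b ⟨⟨ha1, ha2⟩, ha3⟩ ⟨⟨hb1, hb2⟩, hb3⟩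
        refine ⟨⟨C.mul_mem ha1 hb1, X.mul_mem ha2 hb2⟩, fun ω hω => ?_⟩
        rw [map_mul, Subgroup.coe_mul, Equiv.Perm.mul_apply, hb3 ω hω, ha3 ω hω]
      inv_mem' := by
        rintro a ⟨⟨ha1, ha2⟩, ha3⟩
        refine ⟨⟨C.inv_mem ha1, X.inv_mem ha2⟩, fun ω hω => ?_⟩
        rw [map_inv, Subgroup.coe_inv, Equiv.Perm.inv_eq_iff_eq]
        exact (ha3 ω hω).symm }
  have hmem : ∀ c : L, c ∈ C2 ↔ (c ∈ C ∧ c ∈ X) ∧ ∀ ω : Ω, ω ∉ Δ → (ψ c : Perm Ω) ω = ω :=
    fun c => Iff.rfl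
  have hcov : CovOn ψ X Δ C2 := by
    refine ⟨fun c hc => ((hmem c).mp hc).1.2, fun c hc => ((hmem c).mp hc).2, ?_, ?_⟩
    · intro x hxX hxΔ c hc
      obtain ⟨⟨hc1, hc2⟩, hc3⟩ := (hmem c).mp hc
      refine (hmem _).mpr ⟨⟨hCn x hxX (hxΔ ω hωΔ) c hc1, hX.1.conj_mem c hc2 x⟩, ?_⟩
      intro ω' hω'
      have h5 : (ψ x : Perm Ω)⁻¹ ω' = ω' := by
        rw [Equiv.Perm.inv_eq_iff_eq]
        exact (hxΔ ω' hω').symm
      rw [map_mul, map_mul, map_inv, Subgroup.coe_mul, Subgroup.coe_mul, Subgroup.coe_inv,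
        Equiv.Perm.mul_apply, Equiv.Perm.mul_apply, h5, hc3 ω' hω', hxΔ ω' hω']
    · intro τ hτ
      obtain ⟨σ, hσ⟩ := ext_surj ω τ (hτ ω hωΔ)
      have h1 : σ ∈ ((C ⊓ X).map ψ).comap (ext ω) := by
        rw [htop]
        exact Subgroup.mem_top σ
      rw [Subgroup.mem_comap, hσ] at h1
      obtain ⟨c, hc, hcτ⟩ := h1
      refine ⟨c, (hmem c).mpr ⟨⟨hc.1, hc.2⟩, ?_⟩, hcτ⟩
      rw [hcτ]
      exact hτ
  exact fun d hd => ((hmem d).mp (hD.2 C2 hcov hd)).1.1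

end Pool.Agent.H12.NZ.STX
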